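import Pool.Agent.V5helper45.NM.Met

/-!
# From finite sets of primes to all primes up to a bound depending on the parameter
-/

set_option autoImplicit false

namespace Pool.Agent.V5helper45.NM

open Filter Topology Asymptotics

variable {R : ℤ → Prop} {L : ℤ → ℕ → Prop} {M r : ℕ}

lemma int_finite (X : ℝ) : {t : ℤ | |(t : ℝ)| ≤ X}.Finite := by
  refine (Set.finite_Icc (-⌈X⌉) ⌈X⌉).subset fun t ht => ?_
  have h1 := abs_le.1 (show |(t : ℝ)| ≤ X from ht)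
  have h2 : X ≤ ⌈X⌉ := Int.le_ceil X
  rw [Set.mem_Icc]
  constructor
  · have : (-(⌈X⌉ : ℝ)) ≤ t := by linarith [h1.1]
    exact_mod_cast this
  · have : (t : ℝ) ≤ ⌈X⌉ := by linarith [h1.2]
    exact_mod_cast this

/-- primes up to a power of the parameter -/
theorem cnt_bad (hnp : ∀ t p, ¬ p.Prime → L t p)
    (hall : ∀ S : Finset ℕ, {t : ℤ | ¬ (R t ∧ ∀ p ∈ S, L t p)}.encard ≤
      ((M + r * ∑ p ∈ S, p : ℕ) : ℕ∞)) {S : Set ℕ} {δ : ℝ} (hδ : 0 ≤ δ)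
    (hS : ∃ C : ℝ, ∀ Y : ℕ, (({p : ℕ | p ∈ S ∧ p.Prime ∧ p ≤ Y}.ncard : ℕ) : ℝ) ≤ C * (Y : ℝ) ^ δ)
    {θ : ℝ} (hθ : 0 < θ) :
    Cnt (fun t => ¬ (R t ∧ ∀ p ∈ S, (p : ℝ) ≤ |(t : ℝ)| ^ θ → L t p)) (θ * (1 + δ)) := by
  classical
  obtain ⟨C, hC⟩ := hS
  refine ⟨M + r * |C|, fun X hX => ⟨(int_finite X).subset fun t ht => ht.1, ?_⟩⟩
  obtain ⟨Y, hY⟩ : ∃ Y : ℕ, Y = ⌊X ^ θ⌋₊ := ⟨_, rfl⟩
  have hXθ : 1 ≤ X ^ θ := Real.one_le_rpow hX hθ.le
  have hYle : (Y : ℝ) ≤ X ^ θ := by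
    rw [hY]
    exact Nat.floor_le (by linarith)
  obtain ⟨T, hT⟩ : ∃ T : Finset ℕ, T = (Finset.range (Y + 1)).filter (fun p => p ∈ S ∧ p.Prime) :=
    ⟨_, rfl⟩
  have hsub : {t : ℤ | |(t : ℝ)| ≤ X ∧ ¬ (R t ∧ ∀ p ∈ S, (p : ℝ) ≤ |(t : ℝ)| ^ θ → L t p)} ⊆
      {t : ℤ | ¬ (R t ∧ ∀ p ∈ T, L t p)} := by
    rintro t ⟨h1, h2⟩ ⟨h3, h4⟩
    refine h2 ⟨h3, fun p hp hpt => ?_⟩
    by_cases hpp : p.Prime
    · refine h4 p ?_
      rw [hT, Finset.mem_filter, Finset.mem_range]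
      refine ⟨?_, hp, hpp⟩
      have h5 : (p : ℝ) ≤ X ^ θ := hpt.trans (Real.rpow_le_rpow (abs_nonneg _) h1 hθ.le)
      rw [hY, Nat.lt_add_one_iff]
      exact Nat.le_floor h5
    · exact hnp t p hpp
  have h1 : {t : ℤ | |(t : ℝ)| ≤ X ∧ ¬ (R t ∧ ∀ p ∈ S, (p : ℝ) ≤ |(t : ℝ)| ^ θ → L t p)}.encard ≤
      ((M + r * ∑ p ∈ T, p : ℕ) : ℕ∞) := (Set.encard_le_encard hsub).trans (hall T)
  have h2 : {t : ℤ | |(t : ℝ)| ≤ X ∧ ¬ (R t ∧ ∀ p ∈ S, (p : ℝ) ≤ |(t : ℝ)| ^ θ → L t p)}.ncard ≤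
      M + r * ∑ p ∈ T, p := by
    have hfin : {t : ℤ | |(t : ℝ)| ≤ X ∧
        ¬ (R t ∧ ∀ p ∈ S, (p : ℝ) ≤ |(t : ℝ)| ^ θ → L t p)}.Finite :=
      (int_finite X).subset fun t ht => ht.1
    rw [← hfin.cast_ncard_eq] at h1
    exact_mod_cast h1
  have hcard : (T.card : ℝ) ≤ |C| * (X ^ θ) ^ δ := by
    have h3 : T.card = {p : ℕ | p ∈ S ∧ p.Prime ∧ p ≤ Y}.ncard := by
      rw [← Set.ncard_coe_finset]
      congr 1
      ext p
      rw [hT]
      simp only [Finset.coe_filter, Finset.mem_range, Set.mem_ofPred_eq]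
      constructor
      · rintro ⟨a, b, c⟩
        exact ⟨b, c, by omega⟩
      · rintro ⟨a, b, c⟩
        exact ⟨by omega, a, b⟩
    rw [h3]
    refine (hC Y).trans ?_
    have h4 : (Y : ℝ) ^ δ ≤ (X ^ θ) ^ δ := Real.rpow_le_rpow (Nat.cast_nonneg _) hYle hδ
    calc C * (Y : ℝ) ^ δ ≤ |C| * (Y : ℝ) ^ δ :=
          mul_le_mul_of_nonneg_right (le_abs_self C) (by positivity)
      _ ≤ |C| * (X ^ θ) ^ δ := mul_le_mul_of_nonneg_left h4 (abs_nonneg C)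
  have hsum : ((∑ p ∈ T, p : ℕ) : ℝ) ≤ X ^ θ * (|C| * (X ^ θ) ^ δ) := by
    have h5 : ∑ p ∈ T, p ≤ T.card * Y := by
      rw [← smul_eq_mul]
      refine Finset.sum_le_card_nsmul T (fun p => p) Y fun p hp => ?_
      rw [hT, Finset.mem_filter, Finset.mem_range] at hp
      omega
    calc ((∑ p ∈ T, p : ℕ) : ℝ) ≤ ((T.card * Y : ℕ) : ℝ) := by exact_mod_cast h5
      _ = (Y : ℝ) * T.card := by push_cast; ring
      _ ≤ X ^ θ * (|C| * (X ^ θ) ^ δ) := by gcongr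
  have hpow : X ^ θ * (X ^ θ) ^ δ = X ^ (θ * (1 + δ)) := by
    have h0 : 0 < X := by linarith
    rw [← Real.rpow_mul h0.le, ← Real.rpow_add h0]
    ring_nf
  have hone : 1 ≤ X ^ (θ * (1 + δ)) := Real.one_le_rpow hX (by positivity)
  calc (({t : ℤ | |(t : ℝ)| ≤ X ∧
        ¬ (R t ∧ ∀ p ∈ S, (p : ℝ) ≤ |(t : ℝ)| ^ θ → L t p)}.ncard : ℕ) : ℝ)
      ≤ ((M + r * ∑ p ∈ T, p : ℕ) : ℝ) := by exact_mod_cast h2
    _ = M + r * ((∑ p ∈ T, p : ℕ) : ℝ) := by push_cast; ring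
    _ ≤ M + r * (X ^ θ * (|C| * (X ^ θ) ^ δ)) := by gcongr
    _ = M + r * |C| * X ^ (θ * (1 + δ)) := by rw [← hpow]; ring
    _ ≤ M * X ^ (θ * (1 + δ)) + r * |C| * X ^ (θ * (1 + δ)) := by
        have : (M : ℝ) ≤ M * X ^ (θ * (1 + δ)) := le_mul_of_one_le_right (Nat.cast_nonneg _) hone
        linarith
    _ = (M + r * |C|) * X ^ (θ * (1 + δ)) := by ring

lemma log_four_lt : Real.log 4 < 2 := by
  have h1 : Real.log 4 = 2 * Real.log 2 := by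
    rw [show (4 : ℝ) = 2 ^ 2 by norm_num, Real.log_pow]
    norm_num
  rw [h1]
  have := Real.log_two_lt_d9
  linarith

/-- all primes up to `o(√(n log n))`, for almost all parameters -/
theorem dens (hnp : ∀ t p, ¬ p.Prime → L t p)
    (hall : ∀ S : Finset ℕ, {t : ℤ | ¬ (R t ∧ ∀ p ∈ S, L t p)}.encard ≤
      ((M + r * ∑ p ∈ S, p : ℕ) : ℕ∞))
    (g : ℕ → ℝ) (hg : g =o[atTop] (fun n : ℕ => √((n : ℝ) * Real.log n))) :
    Tendsto (fun N : ℕ => (({t : ℤ | |(t : ℝ)| ≤ N ∧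
      ¬ (R t ∧ ∀ p : ℕ, (p : ℝ) ≤ g t.natAbs → L t p)}.ncard : ℕ) : ℝ) / N) atTop (𝓝 0) := by
  classical
  rw [Metric.tendsto_atTop]
  intro ε hε
  obtain ⟨δ, hδ, hδ2⟩ : ∃ δ : ℝ, 0 < δ ∧ 8 * r * δ ^ 2 ≤ ε / 4 := by
    refine ⟨min 1 (ε / (32 * (r + 1))), by positivity, ?_⟩
    have h1 : min 1 (ε / (32 * ((r : ℝ) + 1))) ≤ 1 := min_le_left _ _
    have h2 : min 1 (ε / (32 * ((r : ℝ) + 1))) ≤ ε / (32 * (r + 1)) := min_le_right _ _
    have h0 : 0 < min 1 (ε / (32 * ((r : ℝ) + 1))) := by positivity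
    have h3 : (min 1 (ε / (32 * ((r : ℝ) + 1)))) ^ 2 ≤ ε / (32 * (r + 1)) := by
      rw [pow_two]
      calc _ ≤ 1 * (ε / (32 * ((r : ℝ) + 1))) := mul_le_mul h1 h2 h0.le zero_le_one
        _ = _ := one_mul _
    calc 8 * (r : ℝ) * (min 1 (ε / (32 * ((r : ℝ) + 1)))) ^ 2
        ≤ 8 * (r + 1) * (ε / (32 * (r + 1))) := by gcongr; linarith
      _ = ε / 4 := by field_simp; norm_num
  obtain ⟨n0, hn0⟩ := (hg.bound hδ).exists_forall_of_atTop
  -- the real bound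
  obtain ⟨x, hx⟩ : ∃ x : ℕ → ℝ, x = fun N : ℕ => δ * √((N : ℝ) * Real.log N) := ⟨_, rfl⟩
  have hlogN : Tendsto (fun N : ℕ => Real.log (N : ℝ)) atTop atTop :=
    Real.tendsto_log_atTop.comp tendsto_natCast_atTop_atTop
  have hxlim : Tendsto x atTop atTop := by
    rw [hx]
    refine Tendsto.const_mul_atTop hδ ?_
    exact Real.tendsto_sqrt_atTop.comp (tendsto_natCast_atTop_atTop.atTop_mul_atTop₀ hlogN)
  have hpi := hxlim.eventually (Chebyshev.eventually_primeCounting_le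
    (show (0 : ℝ) < 2 - Real.log 4 by linarith [log_four_lt]))
  -- the logarithm of the bound
  have hlogx : ∀ᶠ N : ℕ in atTop, Real.log N / 4 ≤ Real.log (x N) := by
    filter_upwards [hlogN.eventually_ge_atTop (max 1 (-4 * Real.log δ)),
      eventually_ge_atTop 1] with N hN hN1
    have hN0 : (0 : ℝ) < N := by exact_mod_cast hN1
    have h1 : 1 ≤ Real.log N := (le_max_left _ _).trans hN
    have h2 : -4 * Real.log δ ≤ Real.log N := (le_max_right _ _).trans hN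
    have h3 : Real.log (x N) = Real.log δ + (Real.log N + Real.log (Real.log N)) / 2 := by
      rw [hx]
      simp only
      rw [Real.log_mul hδ.ne' (by positivity), Real.log_sqrt (by positivity),
        Real.log_mul hN0.ne' (by positivity)]
    have h4 : 0 ≤ Real.log (Real.log N) := Real.log_nonneg h1
    rw [h3]
    linarith
  have hbig : ∀ᶠ N : ℕ in atTop, ((2 * n0 + 1 + M : ℕ) : ℝ) / N ≤ ε / 4 := by
    have h1 : Tendsto (fun N : ℕ => ((2 * n0 + 1 + M : ℕ) : ℝ) / (N : ℝ)) atTop (𝓝 0) :=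
      tendsto_const_nhds.div_atTop tendsto_natCast_atTop_atTop
    exact h1.eventually (ge_mem_nhds (by positivity))
  obtain ⟨N₀, hN₀⟩ := (hpi.and (hlogx.and (hbig.and ((hlogN.eventually_ge_atTop 1).and
    (eventually_ge_atTop 1))))).exists_forall_of_atTop
  refine ⟨N₀, fun N hN => ?_⟩
  obtain ⟨h1, h2, h3, h4, h5⟩ := hN₀ N hN
  have hNpos : (0 : ℝ) < N := by exact_mod_cast h5
  have hlog0 : 0 < Real.log N := by linarith
  obtain ⟨Y, hY⟩ : ∃ Y : ℕ, Y = ⌊x N⌋₊ := ⟨_, rfl⟩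
  have hx0 : 0 ≤ x N := by rw [hx]; positivity
  have hYx : (Y : ℝ) ≤ x N := by rw [hY]; exact Nat.floor_le hx0
  have hsub : {t : ℤ | |(t : ℝ)| ≤ N ∧ ¬ (R t ∧ ∀ p : ℕ, (p : ℝ) ≤ g t.natAbs → L t p)} ⊆
      {t : ℤ | ¬ (R t ∧ ∀ p ∈ Nat.primesLE Y, L t p)} ∪ (Set.Icc (-(n0 : ℤ)) n0) := by
    rintro t ⟨ht, ht2⟩
    by_cases htn : t.natAbs < n0
    · right
      rw [Set.mem_Icc]
      omega
    · left
      rintro ⟨h6, h7⟩
      refine ht2 ⟨h6, fun p hp => ?_⟩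
      by_cases hpp : p.Prime
      · refine h7 p ?_
        rw [Nat.mem_primesLE]
        refine ⟨?_, hpp⟩
        have h8 := hn0 t.natAbs (by omega)
        have h9 : ((t.natAbs : ℕ) : ℝ) ≤ N := by
          rw [Nat.cast_natAbs, Int.cast_abs]
          exact ht
        have h10 : g t.natAbs ≤ x N := by
          refine (le_abs_self _).trans ?_
          rw [← Real.norm_eq_abs]
          refine h8.trans ?_
          rw [hx, Real.norm_of_nonneg (Real.sqrt_nonneg _)]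
          refine mul_le_mul_of_nonneg_left (Real.sqrt_le_sqrt ?_) hδ.le
          rcases Nat.eq_zero_or_pos t.natAbs with h0 | h0
          · rw [h0]
            simp only [Nat.cast_zero, zero_mul]
            positivity
          · have h11 : (0 : ℝ) < ((t.natAbs : ℕ) : ℝ) := by exact_mod_cast h0
            have h12 : Real.log ((t.natAbs : ℕ) : ℝ) ≤ Real.log N := Real.log_le_log h11 h9
            have h13 : 0 ≤ Real.log ((t.natAbs : ℕ) : ℝ) :=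
              Real.log_nonneg (by exact_mod_cast h0)
            exact mul_le_mul h9 h12 h13 hNpos.le
        rw [hY]
        exact Nat.le_floor (hp.trans h10)
      · exact hnp t p hpp
  have hc1 : {t : ℤ | |(t : ℝ)| ≤ N ∧ ¬ (R t ∧ ∀ p : ℕ, (p : ℝ) ≤ g t.natAbs → L t p)}.encard ≤
      (((M + r * ∑ p ∈ Nat.primesLE Y, p) + (2 * n0 + 1) : ℕ) : ℕ∞) := by
    refine (Set.encard_le_encard hsub).trans ((Set.encard_union_le _ _).trans ?_)
    rw [Nat.cast_add]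
    refine add_le_add (hall _) ?_
    rw [← Finset.coe_Icc, Set.encard_coe_eq_coe_finsetCard, Int.card_Icc]
    have : (((n0 : ℤ) + 1 - -(n0 : ℤ)).toNat) = 2 * n0 + 1 := by omega
    rw [this]
  have hc2 : {t : ℤ | |(t : ℝ)| ≤ N ∧ ¬ (R t ∧ ∀ p : ℕ, (p : ℝ) ≤ g t.natAbs → L t p)}.ncard ≤
      (M + r * ∑ p ∈ Nat.primesLE Y, p) + (2 * n0 + 1) := by
    have hfin : {t : ℤ | |(t : ℝ)| ≤ N ∧
        ¬ (R t ∧ ∀ p : ℕ, (p : ℝ) ≤ g t.natAbs → L t p)}.Finite :=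
      (int_finite N).subset fun t ht => ht.1
    rw [← hfin.cast_ncard_eq] at hc1
    exact_mod_cast hc1
  have hsum : ((∑ p ∈ Nat.primesLE Y, p : ℕ) : ℝ) ≤ 8 * δ ^ 2 * N := by
    have h6 : ∑ p ∈ Nat.primesLE Y, p ≤ (Nat.primesLE Y).card * Y := by
      rw [← smul_eq_mul]
      refine Finset.sum_le_card_nsmul _ (fun p => p) Y fun p hp => ?_
      rw [Nat.mem_primesLE] at hp
      exact hp.1
    rw [Nat.primesLE_card_eq_primeCounting] at h6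
    have h7 : ((Nat.primeCounting Y : ℕ) : ℝ) ≤ 2 * x N / Real.log (x N) := by
      have h8 : (Real.log 4 + (2 - Real.log 4)) = 2 := by ring
      rw [h8] at h1
      rw [hY]
      exact h1
    have hlx : 0 < Real.log (x N) := by linarith
    calc ((∑ p ∈ Nat.primesLE Y, p : ℕ) : ℝ) ≤ ((Nat.primeCounting Y * Y : ℕ) : ℝ) := by
          exact_mod_cast h6
      _ = (Nat.primeCounting Y : ℝ) * Y := by push_cast; ring
      _ ≤ (2 * x N / Real.log (x N)) * x N := by gcongr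
      _ = 2 * (x N) ^ 2 / Real.log (x N) := by ring
      _ ≤ 2 * (x N) ^ 2 / (Real.log N / 4) := by gcongr
      _ = 8 * δ ^ 2 * N := by
          rw [hx]
          simp only
          rw [mul_pow, Real.sq_sqrt (by positivity)]
          field_simp
          norm_num
  rw [Real.dist_eq, sub_zero, abs_of_nonneg (by positivity)]
  calc (({t : ℤ | |(t : ℝ)| ≤ N ∧
        ¬ (R t ∧ ∀ p : ℕ, (p : ℝ) ≤ g t.natAbs → L t p)}.ncard : ℕ) : ℝ) / N
      ≤ (((M + r * ∑ p ∈ Nat.primesLE Y, p) + (2 * n0 + 1) : ℕ) : ℝ) / N := by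
        gcongr
    _ = ((2 * n0 + 1 + M : ℕ) : ℝ) / N + r * ((∑ p ∈ Nat.primesLE Y, p : ℕ) : ℝ) / N := by
        push_cast
        ring
    _ ≤ ε / 4 + r * (8 * δ ^ 2 * N) / N := by gcongr
    _ = ε / 4 + 8 * r * δ ^ 2 := by field_simp
    _ ≤ ε / 4 + ε / 4 := by gcongr
    _ < ε := by linarith

end Pool.Agent.V5helper45.NM
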