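import Pool.Agent.V5helper45.LS.Fin
import Pool.Agent.V5helper65.LG.Family2

/-!
# Finite sets of primes at once, and the Galois closures of degree at most four
-/

set_option autoImplicit false

namespace Pool.Agent.V5helper45.NM

open Polynomial NumberField IntermediateField Module
open Pool.Agent.W254.LF (LeopoldtAt)
open Pool.Agent.V5helper45.LS

variable {r : ℕ}

/-- the pairs `(t, p)`, `p` in a finite set -/
theorem finset_pairs (P : Fin r → ℤ[X]) (hmon : ∀ i, (P i).Monic) (hinj : Function.Injective P)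
    (hdeg : ∀ i, (P i).natDegree = 1 ∨
      ((P i).natDegree = 2 ∧ ∀ x : ℝ, ((P i).map (Int.castRingHom ℝ)).eval x ≠ 0)) (hr : 0 < r) :
    ∃ C : ℕ, ∀ S : Finset ℕ, {x : ℤ × ℕ | Regular P x.1 ∧ x.2 ∈ S ∧ Fails P x.1 x.2}.encard ≤
      ((C + r * ∑ p ∈ S, p : ℕ) : ℕ∞) := by
  classical
  have hdeg' : ∀ i, (P i).natDegree = 1 ∨ (P i).natDegree = 2 := fun i => (hdeg i).imp id (fun h => h.1)
  obtain ⟨M, hM⟩ := exists_good P hmon hinj hdeg
  obtain ⟨M0, hM0⟩ : ∃ M0, M0 = M + 5 + 2 * (1 + ∑ i, (P i).natDegree) := ⟨_, rfl⟩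
  refine ⟨∑ q ∈ Finset.range M0, {t : ℤ | Fails P t q}.ncard, fun S => ?_⟩
  have hsub : {x : ℤ × ℕ | Regular P x.1 ∧ x.2 ∈ S ∧ Fails P x.1 x.2} ⊆
      (⋃ q ∈ Finset.range M0, (fun t : ℤ => (t, q)) '' {t : ℤ | Fails P t q}) ∪
      (⋃ q ∈ S.filter (fun q => q.Prime ∧ M0 ≤ q),
        (fun t : ℤ => (t, q)) '' {t : ℤ | Regular P t ∧ Fails P t q}) := by
    rintro ⟨t, q⟩ ⟨h1, h2, h3⟩
    have hq : q.Prime := h3.1.out
    rcases lt_or_ge q M0 with h | h
    · left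
      simp only [Set.mem_iUnion]
      exact ⟨q, Finset.mem_range.2 h, t, h3, rfl⟩
    · right
      simp only [Set.mem_iUnion]
      exact ⟨q, Finset.mem_filter.2 ⟨h2, hq, h⟩, t, ⟨h1, h3⟩, rfl⟩
  refine (Set.encard_le_encard hsub).trans ((Set.encard_union_le _ _).trans ?_)
  rw [Nat.cast_add]
  refine add_le_add ?_ ?_
  · refine (encard_biUnion_le' _ _).trans ?_
    rw [Nat.cast_sum]
    refine Finset.sum_le_sum fun q _ => (Set.encard_image_le _ _).trans ?_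
    rw [(fails_finite P hmon hinj hdeg q).cast_ncard_eq]
  · refine (encard_biUnion_le' _ _).trans ?_
    rw [Finset.mul_sum, Nat.cast_sum]
    refine (Finset.sum_le_sum (g := fun q => ((r * q : ℕ) : ℕ∞)) ?_).trans
      (Finset.sum_le_sum_of_subset (Finset.filter_subset _ _))
    intro q hq
    rw [Finset.mem_filter] at hq
    refine (Set.encard_image_le _ _).trans ?_
    exact prime_le P hmon hdeg' hr q hq.2.1 (by omega) (by omega) (hM q hq.2.1 (by omega))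

/-- all primes of a finite set at once -/
theorem finset_primes (P : Fin r → ℤ[X]) (hmon : ∀ i, (P i).Monic) (hinj : Function.Injective P)
    (hdeg : ∀ i, (P i).natDegree = 1 ∨
      ((P i).natDegree = 2 ∧ ∀ x : ℝ, ((P i).map (Int.castRingHom ℝ)).eval x ≠ 0)) (hr : 0 < r) :
    ∃ C : ℕ, ∀ S : Finset ℕ,
      {x : ℤ × ℕ | Regular P x.1 ∧ x.2 ∈ S ∧ Fails P x.1 x.2}.encard ≤
        ((C + r * ∑ p ∈ S, p : ℕ) : ℕ∞) ∧
      {t : ℤ | ¬ (Regular P t ∧ ∀ p ∈ S, ¬ Fails P t p)}.encard ≤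
        ((C + r * ∑ p ∈ S, p : ℕ) : ℕ∞) := by
  classical
  obtain ⟨C, hC⟩ := finset_pairs P hmon hinj hdeg hr
  refine ⟨{t : ℤ | ¬ Regular P t}.ncard + C, fun S => ⟨(hC S).trans ?_, ?_⟩⟩
  · rw [Nat.cast_le]
    omega
  have hsub : {t : ℤ | ¬ (Regular P t ∧ ∀ p ∈ S, ¬ Fails P t p)} ⊆ {t : ℤ | ¬ Regular P t} ∪
      Prod.fst '' {x : ℤ × ℕ | Regular P x.1 ∧ x.2 ∈ S ∧ Fails P x.1 x.2} := by
    intro t ht
    by_cases hreg : Regular P t
    · right
      have : ∃ p ∈ S, Fails P t p := by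
        by_contra hcon
        push Not at hcon
        exact ht ⟨hreg, hcon⟩
      obtain ⟨p, hp, hf⟩ := this
      exact ⟨(t, p), ⟨hreg, hp, hf⟩, rfl⟩
    · left
      exact hreg
  refine (Set.encard_le_encard hsub).trans ((Set.encard_union_le _ _).trans ?_)
  have h1 := (regular_finite P hmon hinj hdeg).cast_ncard_eq
  have h2 := (Set.encard_image_le Prod.fst _).trans (hC S)
  rw [← h1, add_assoc, Nat.cast_add]
  exact add_le_add_right h2 _

/-- the Galois closures of degree at most four -/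
theorem closure_holds (P : Fin r → ℤ[X]) (hmon : ∀ i, (P i).Monic)
    (hdeg : ∀ i, (P i).natDegree = 1 ∨ (P i).natDegree = 2) (hr : 0 < r) {t : ℤ}
    (ht : Regular P t) {p : ℕ} [hp : Fact p.Prime] (hf : ¬ Fails P t p)
    (h4 : 1 + ∑ i, (P i).natDegree ≤ 4) (F : Type) [Field F] [NumberField F]
    (hF : (((X - C t) * ∏ i, P i - 1 : ℤ[X]).map (Int.castRingHom ℚ)).IsSplittingField ℚ F)
    (h24 : finrank ℚ F = 24 → ∃ i, (P i).natDegree = 2) : LeopoldtAt F p := by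
  classical
  have hpos : 1 ≤ ∑ i, (P i).natDegree := by
    have h1 : (P ⟨0, hr⟩).natDegree ≤ ∑ i, (P i).natDegree :=
      Finset.single_le_sum (f := fun i => (P i).natDegree) (fun i _ => Nat.zero_le _)
        (Finset.mem_univ _)
    rcases hdeg ⟨0, hr⟩ with h | h <;> omega
  obtain ⟨hmonf, hnd⟩ := fam_natDegree_int P hmon t hpos
  have hirr : Irreducible ((X - C t) * ∏ i, P i - 1 : ℤ[X]) :=
    (hmonf.irreducible_iff_irreducible_map_fraction_map (K := ℚ)).2 ht.1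
  obtain ⟨hirrQ, K, _, _, θ, hθ, hgen, hj⟩ :=
    Pool.Agent.V5helper65.LG.exists_root_field _ hmonf hirr
  obtain ⟨hrp, hcp⟩ := ht.2 K θ hθ hgen
  obtain ⟨hfin, -⟩ := rank_regular P hmon hdeg hpos ht K θ hθ hgen
  have hL : LeopoldtAt K p := by
    by_contra hcon
    exact hf ⟨hp, K, _, _, θ, hθ, hgen, hcon⟩
  have : IsGalois ℚ F := Pool.Agent.V5helper65.LG.isGalois_of_splitting F
    (((X - C t) * ∏ i, P i - 1 : ℤ[X]).map (Int.castRingHom ℚ))
  obtain ⟨x, hx⟩ : ∃ x : F, aeval x ((X - C t) * ∏ i, P i - 1 : ℤ[X]) = 0 := by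
    have h1 := hF.splits'
    have h2 : (((X - C t) * ∏ i, P i - 1 : ℤ[X]).map (Int.castRingHom ℚ)).degree ≠ 0 :=
      (degree_pos_of_irreducible hirrQ).ne'
    obtain ⟨x, hx⟩ := h1.exists_eval_eq_zero (by rwa [degree_map])
    refine ⟨x, ?_⟩
    rw [eval_map] at hx
    have h3 : aeval x (((X - C t) * ∏ i, P i - 1 : ℤ[X]).map (algebraMap ℤ ℚ)) =
        aeval x ((X - C t) * ∏ i, P i - 1 : ℤ[X]) := aeval_map_algebraMap _ _ _
    rw [← h3]
    exact hx
  obtain ⟨j, hjx⟩ := hj F x hx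
  have hθ' : aeval θ (((X - C t) * ∏ i, P i - 1 : ℤ[X]).map (Int.castRingHom ℚ)) = 0 := by
    have h3 : aeval θ (((X - C t) * ∏ i, P i - 1 : ℤ[X]).map (algebraMap ℤ ℚ)) =
        aeval θ ((X - C t) * ∏ i, P i - 1 : ℤ[X]) := aeval_map_algebraMap _ _ _
    exact h3.trans hθ
  have hcl : Pool.Agent.V5helper65.LG.IsClosure j :=
    Pool.Agent.V5helper65.LG.isClosure_of_splitting _ hirrQ j θ hθ'
  refine Pool.Agent.V5helper65.LG.leopoldt_closure_four (p := p) j hcl (by omega) (fun h' => ?_) hL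
  obtain ⟨i, hi⟩ := h24 h'
  refine Pool.Agent.V5helper65.LG.mixed_of (by omega) ?_
  rw [hcp]
  exact Finset.card_pos.2 ⟨i, Finset.mem_filter.2 ⟨Finset.mem_univ _, hi⟩⟩

end Pool.Agent.V5helper45.NM
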