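import Pool.Agent.R559.NP.Near
import Pool.Agent.N671.DA.Win
import Pool.Agent.Y854.GM.Win

/-!
# Thin sets of integers: metric statements for countably many sets at once
-/

set_option autoImplicit false

namespace Pool.Agent.V5helper45.NM

open Filter Topology MeasureTheory
open Pool.Agent.N671.DA (Solves Expanding approx_windows)
open Pool.Agent.Y854.GM (ExpLe windows)

/-- the set has at most `C X ^ s` elements up to `X` -/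
def Cnt (B : ℤ → Prop) (s : ℝ) : Prop :=
  ∃ C : ℝ, ∀ X : ℝ, 1 ≤ X → {t : ℤ | |(t : ℝ)| ≤ X ∧ B t}.Finite ∧
    (({t : ℤ | |(t : ℝ)| ≤ X ∧ B t}.ncard : ℕ) : ℝ) ≤ C * X ^ s

lemma Cnt.eps {B : ℤ → Prop} {s : ℝ} (h : Cnt B s) (ε : ℝ) (hε : 0 < ε) : Cnt B (s + ε) := by
  obtain ⟨C, hC⟩ := h
  refine ⟨|C|, fun X hX => ⟨(hC X hX).1, (hC X hX).2.trans ?_⟩⟩
  have h1 : X ^ s ≤ X ^ (s + ε) := Real.rpow_le_rpow_of_exponent_le hX (by linarith)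
  have h0 : 0 ≤ X ^ s := by positivity
  calc C * X ^ s ≤ |C| * X ^ s := mul_le_mul_of_nonneg_right (le_abs_self C) h0
    _ ≤ |C| * X ^ (s + ε) := mul_le_mul_of_nonneg_left h1 (abs_nonneg C)

/-- the height -/
noncomputable def H (t : ℤ) : ℝ := max 1 |(t : ℝ)|

lemma one_le_H (t : ℤ) : 1 ≤ H t := le_max_left _ _

lemma H_eq {t : ℤ} (ht : t ≠ 0) : H t = |(t : ℝ)| := by
  refine max_eq_right ?_
  have h1 : (1 : ℤ) ≤ |t| := Int.one_le_abs ht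
  exact_mod_cast h1

lemma set_eq (B : ℤ → Prop) {X : ℝ} (hX : 1 ≤ X) :
    {t | B t ∧ H t ≤ X} = {t : ℤ | |(t : ℝ)| ≤ X ∧ B t} := by
  ext t
  simp only [Set.mem_ofPred_eq, H, max_le_iff]
  tauto

lemma Cnt.near {B : ℤ → Prop} {s : ℝ} (h : Cnt B s) :
    ∀ ε : ℝ, 0 < ε → ∃ C : ℝ, ∀ X : ℝ, 1 ≤ X → {t | B t ∧ H t ≤ X}.Finite ∧
      (({t | B t ∧ H t ≤ X}.ncard : ℕ) : ℝ) ≤ C * X ^ (s + ε) := by
  intro ε hε
  obtain ⟨C, hC⟩ := h.eps ε hε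
  refine ⟨C, fun X hX => ?_⟩
  rw [set_eq B hX]
  exact hC X hX

lemma finite_conv {X : Type} [MetricSpace X] {B : ℤ → Prop} {φ : ℤ → X} {τ : ℝ} {ξ : X} {A : ℝ}
    (h : {t | dist (φ t) ξ ≤ A * H t ^ (-τ) ∧ B t}.Finite) :
    {t : ℤ | dist (φ t) ξ ≤ A * |(t : ℝ)| ^ (-τ) ∧ B t}.Finite := by
  refine (h.union (Set.finite_singleton 0)).subset ?_
  rintro t ⟨h1, h2⟩
  by_cases ht : t = 0
  · right
    exact ht
  · left
    refine ⟨?_, h2⟩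
    rw [H_eq ht]
    exact h1

section fam

variable {ι : Type} [Countable ι] {B : ι → ℤ → Prop} {s : ℝ}

theorem near_fam (hs : 0 ≤ s) (hB : ∀ i, Cnt (B i) s) {τ : ℝ} (hτ : 0 < τ) {X : Type}
    [MetricSpace X] (φ : ℤ → X) :
    ∃ E : Set X, dimH E ≤ ENNReal.ofReal (s / τ) ∧ ∀ ξ : X, ξ ∉ E → ∀ i, ∀ A : ℝ,
      {t : ℤ | dist (φ t) ξ ≤ A * |(t : ℝ)| ^ (-τ) ∧ B i t}.Finite := by
  choose E hE hE2 using fun i => Pool.Agent.R559.NP.near_dim one_le_H hs hτ (hB i).near φ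
  refine ⟨⋃ i, E i, ?_, fun ξ hξ i A => ?_⟩
  · rw [dimH_iUnion]
    exact iSup_le hE
  · exact finite_conv (hE2 i ξ (fun h => hξ (Set.mem_iUnion.2 ⟨i, h⟩)) A)

theorem near_ae_fam (hs : 0 ≤ s) (hB : ∀ i, Cnt (B i) s) {τ : ℝ} {X : Type}
    [MetricSpace X] [MeasurableSpace X] (μ : Measure X) {C₀ m : ℝ}
    (hμ : ∀ (x : X) (r : ℝ), 0 < r → μ (Metric.closedBall x r) ≤ ENNReal.ofReal (C₀ * r ^ m))
    (hsm : s < τ * m) (φ : ℤ → X) :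
    ∀ᵐ ξ ∂μ, ∀ i, ∀ A : ℝ, {t : ℤ | dist (φ t) ξ ≤ A * |(t : ℝ)| ^ (-τ) ∧ B i t}.Finite := by
  rw [ae_all_iff]
  intro i
  filter_upwards [Pool.Agent.R559.NP.near_ae μ hμ one_le_H hs hsm (hB i).near φ] with ξ hξ A
  exact finite_conv (hξ A)

theorem win_fam (hs : 0 ≤ s) (hB : ∀ i, Cnt (B i) s) {v : ℕ → ℝ} {τ κ : ℝ}
    (hv1 : ∀ n, 1 ≤ v n) (hτ : 0 ≤ τ) (hv : ExpLe v τ) (hκ : κ < 1) :
    ∃ E : Set ℝ, dimH E ≤ ENNReal.ofReal ((s + τ) / (1 - κ)) ∧ ∀ α : ℝ, 0 < α → α ∉ E → ∀ i,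
      ∃ N₀ : ℕ, ∀ N : ℕ, N₀ ≤ N → ∀ t : ℤ, |(|(t : ℝ)| - α * v N)| ≤ v N ^ κ → ¬ B i t := by
  have h1 : ∀ i, ∃ E : Set ℝ, dimH E ≤ ENNReal.ofReal ((s + τ) / (1 - κ)) ∧
      ∀ α : ℝ, 0 < α → α ∉ E → ∃ n0 : ℕ, ∀ n : ℕ, n0 ≤ n → ∀ t ∈ {t : ℤ | B i t},
        (v n) ^ κ < |(|(t : ℝ)| - α * v n)| := by
    intro i
    refine windows {t : ℤ | B i t} (fun t : ℤ => |(t : ℝ)|) hv1 hτ hv hs hκ fun ε hε => ?_
    obtain ⟨C, hC⟩ := (hB i).eps ε hε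
    refine ⟨C, fun X hX => ?_⟩
    have h2 : {t : ℤ | t ∈ {t : ℤ | B i t} ∧ |(t : ℝ)| ≤ X} = {t : ℤ | |(t : ℝ)| ≤ X ∧ B i t} := by
      ext t
      simp only [Set.mem_ofPred_eq]
      tauto
    rw [h2]
    exact hC X hX
  choose E hE hE2 using h1
  refine ⟨⋃ i, E i, ?_, fun α hα hαE i => ?_⟩
  · rw [dimH_iUnion]
    exact iSup_le hE
  · obtain ⟨n0, hn0⟩ := hE2 i α hα (fun h => hαE (Set.mem_iUnion.2 ⟨i, h⟩))
    exact ⟨n0, fun N hN t ht hb => absurd (hn0 N hN t hb) (not_lt.2 ht)⟩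

theorem approx_fam (hs : 0 ≤ s) (hB : ∀ i, Cnt (B i) s) {G : ℕ → ℝ} {d : ℝ} (hG : Expanding G d)
    {κ : ℝ} (hκ : 0 ≤ κ) (hκ1 : κ ≤ 1) {m : ℕ} (β : Fin m → ℝ) {τ : ℝ} (hτ : 0 < τ) :
    ∃ E : Set (Fin m → ℝ), dimH E ≤ ENNReal.ofReal ((m + (d * s + κ)) / (1 + τ)) ∧
      ∀ α, α ∉ E → ∀ i, ∀ c : ℝ, ∃ Q : ℕ, ∀ q : ℕ, Q ≤ q → Solves α β q (c * (q : ℝ) ^ (-τ)) →
        ∀ t : ℤ, |(|(t : ℝ)| - G q)| ≤ (q : ℝ) ^ κ → ¬ B i t := by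
  have h1 : ∀ i, ∃ E : Set (Fin m → ℝ), dimH E ≤ ENNReal.ofReal ((m + (d * s + κ)) / (1 + τ)) ∧
      ∀ α, α ∉ E → ∀ c : ℝ, ∃ Q : ℕ, ∀ q : ℕ, Q ≤ q → Solves α β q (c * (q : ℝ) ^ (-τ)) →
        ∀ t ∈ {t : ℤ | B i t}, ¬ |(|(t : ℝ)| - G q)| ≤ (q : ℝ) ^ κ := by
    intro i
    refine approx_windows {t : ℤ | B i t} (fun t : ℤ => |(t : ℝ)|) hG hs hκ hκ1 (fun ε hε => ?_)
      β hτ
    obtain ⟨C, hC⟩ := (hB i).eps ε hε
    refine ⟨C, fun X hX => ?_⟩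
    have h2 : {t : ℤ | t ∈ {t : ℤ | B i t} ∧ |(t : ℝ)| ≤ X} = {t : ℤ | |(t : ℝ)| ≤ X ∧ B i t} := by
      ext t
      simp only [Set.mem_ofPred_eq]
      tauto
    rw [h2]
    exact hC X hX
  choose E hE hE2 using h1
  refine ⟨⋃ i, E i, ?_, fun α hα i c => ?_⟩
  · rw [dimH_iUnion]
    exact iSup_le hE
  · obtain ⟨Q, hQ⟩ := hE2 i α (fun h => hα (Set.mem_iUnion.2 ⟨i, h⟩)) c
    exact ⟨Q, fun q hq h1 t ht hb => hQ q hq h1 t hb ht⟩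

/-- the truncations of the `ℓ`-adic expansions -/
theorem digits_fam (hs : 0 ≤ s) (hB : ∀ i, Cnt (B i) s) (ℓ : ℕ) [hℓ : Fact ℓ.Prime] :
    ∃ E : Set ℤ_[ℓ], dimH E ≤ ENNReal.ofReal s ∧ ∀ ξ : ℤ_[ℓ], ξ ∉ E → ∀ i,
      ∃ N₀ : ℕ, ∀ N : ℕ, N₀ ≤ N → ¬ B i (ξ.appr N : ℤ) := by
  obtain ⟨E, hE, hE2⟩ := near_fam hs hB one_pos (fun t : ℤ => (t : ℤ_[ℓ]))
  refine ⟨E ∪ Set.range (fun n : ℕ => (n : ℤ_[ℓ])), ?_, fun ξ hξ i => ?_⟩
  · rw [dimH_union, (Set.countable_range _).dimH_zero]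
    refine max_le ?_ bot_le
    rwa [div_one] at hE
  · have hξE : ξ ∉ E := fun h => hξ (Or.inl h)
    have hξN : ξ ∉ Set.range (fun n : ℕ => (n : ℤ_[ℓ])) := fun h => hξ (Or.inr h)
    have hfin := hE2 ξ hξE i 1
    -- the distance
    have hdist : ∀ N : ℕ, ‖((ξ.appr N : ℕ) : ℤ_[ℓ]) - ξ‖ ≤ (ℓ : ℝ) ^ (-(N : ℤ)) := by
      intro N
      have h1 := PadicInt.appr_spec N ξ
      rw [← PadicInt.norm_le_pow_iff_mem_span_pow] at h1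
      rwa [norm_sub_rev]
    -- every value is taken finitely often
    have hval : ∀ n : ℕ, {N : ℕ | ξ.appr N = n}.Finite := by
      intro n
      by_contra hinf
      apply hξN
      refine ⟨n, ?_⟩
      have h1 : ∀ ε : ℝ, 0 < ε → ‖(n : ℤ_[ℓ]) - ξ‖ ≤ ε := by
        intro ε hε
        have hlim : Tendsto (fun N : ℕ => (ℓ : ℝ) ^ (-(N : ℤ))) atTop (𝓝 0) := by
          have h2 : ((ℓ : ℝ)⁻¹) < 1 := by
            apply inv_lt_one_of_one_lt₀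
            exact_mod_cast hℓ.out.one_lt
          have h3 := tendsto_pow_atTop_nhds_zero_of_lt_one (r := (ℓ : ℝ)⁻¹) (by positivity) h2
          refine h3.congr fun N => ?_
          rw [zpow_neg, zpow_natCast, inv_pow]
        obtain ⟨N₁, hN₁⟩ := (hlim.eventually (gt_mem_nhds hε)).exists_forall_of_atTop
        obtain ⟨N, hN, hN2⟩ := (Set.not_finite.1 hinf).exists_gt N₁
        have h4 := hdist N
        have h5 : ξ.appr N = n := hN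
        rw [h5] at h4
        exact h4.trans (hN₁ N hN2.le).le
      have h2 : ‖(n : ℤ_[ℓ]) - ξ‖ ≤ 0 := le_of_forall_pos_le_add (by simpa using h1)
      exact sub_eq_zero.1 (norm_le_zero_iff.1 h2)
    -- the bad truncations
    have hbad : {N : ℕ | B i (ξ.appr N : ℤ)}.Finite := by
      have hsub : {N : ℕ | B i (ξ.appr N : ℤ)} ⊆ {N : ℕ | ξ.appr N = 0} ∪
          ⋃ t ∈ {t : ℤ | dist ((t : ℤ) : ℤ_[ℓ]) ξ ≤ 1 * |(t : ℝ)| ^ (-(1 : ℝ)) ∧ B i t},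
            {N : ℕ | ξ.appr N = t.toNat} := by
        intro N hN
        by_cases h0 : ξ.appr N = 0
        · left
          exact h0
        · right
          simp only [Set.mem_iUnion]
          refine ⟨(ξ.appr N : ℤ), ⟨?_, hN⟩, by simp⟩
          have h1 := hdist N
          rw [dist_eq_norm]
          push_cast
          refine h1.trans ?_
          rw [one_mul, Nat.abs_cast, Real.rpow_neg_one, zpow_neg, zpow_natCast]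
          have h2 : ξ.appr N < ℓ ^ N := PadicInt.appr_lt ξ N
          have h3 : (0 : ℝ) < (ξ.appr N : ℝ) := by
            have := Nat.pos_of_ne_zero h0
            exact_mod_cast this
          apply inv_anti₀ h3
          exact_mod_cast h2.le
      refine ((hval 0).union ?_).subset hsub
      exact hfin.biUnion fun t _ => hval _
    obtain ⟨N₁, hN₁⟩ := hbad.bddAbove
    exact ⟨N₁ + 1, fun N hN hb => by
      have := hN₁ hb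
      omega⟩

end fam

end Pool.Agent.V5helper45.NM
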